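import Pool.Agent.N543.HN.Base

/-!
# HN/MAIN (helper543, port of CW/Comb of helper162): a cycle with a relation of high degree is
supported on few curves
-/

set_option autoImplicit false
set_option linter.unusedSectionVars false

open MvPolynomial

namespace Pool.Agent.N543.HN

open Pool.Agent.N162.HN
open Pool.Agent.N162.CV (PRel MonicY StA3 StBEZ td_prod td_dvd relPrime_of_not_dvd one_le_td mulH)
open Pool.Agent.N162.CW (StA2)

section

variable {n : ℕ} {Ω : Type} [Field Ω]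

theorem mem_Gam {r : ℕ} {c : (Fin (n + 2) → Ω) →₀ ℤ} {cyc : Fin r → (Fin (n + 2) → Ω) →₀ ℤ}
    {p : Fin (n + 2) → Ω} : p ∈ Gam c cyc ↔ c p ≠ 0 ∨ ∃ i, cyc i p ≠ 0 := by
  classical
  unfold Gam
  simp

variable {r : ℕ} {κ : (Fin (n + 2) → Ω) → Ω} {m N d : ℕ} {c : (Fin (n + 2) → Ω) →₀ ℤ}
  {g : Fin r → ℕ}
  {on : Fin r → (Fin (n + 2) → Ω) → Prop} {cyc : Fin r → (Fin (n + 2) → Ω) →₀ ℤ}
  {A : Fin n → MvPolynomial (Fin 2) Ω} {t : Ω} {J : Finset (Fin r)}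
  {G : Fin r → MvPolynomial (Fin 2) Ω} {Γ : Finset (Fin (n + 2) → Ω)}

theorem conf_c0 (hC : Conf r κ m N d c g on cyc A) :
    ∀ p, c p ≠ 0 → p ∈ Gam c cyc ∧ p 0 = 1 ∧ κ p ≠ 0 := fun p h =>
  ⟨mem_Gam.2 (Or.inl h), (hC.hc0 p h).1, (hC.hc0 p h).2⟩

theorem conf_cy0 (hC : Conf r κ m N d c g on cyc A) (i : Fin r) :
    ∀ p, cyc i p ≠ 0 → p ∈ Gam c cyc ∧ p 0 = 1 ∧ κ p ≠ 0 := fun p h =>
  ⟨mem_Gam.2 (Or.inr ⟨i, h⟩), (hC.cyc0 i p h).1, (hC.cyc0 i p h).2.1⟩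

theorem conf_gam0 (hC : Conf r κ m N d c g on cyc A) : ∀ p ∈ Gam c cyc, p 0 = 1 := by
  intro p hp
  rcases mem_Gam.1 hp with h | ⟨i, h⟩
  · exact (hC.hc0 p h).1
  · exact (hC.cyc0 i p h).1

/-- the polynomial which vanishes at the `t` for which the projections of `p`, `q` agree -/
noncomputable def fpq (p q : Fin (n + 2) → Ω) : Polynomial Ω :=
  ∑ l : Fin n, Polynomial.C (p l.succ.succ - q l.succ.succ) * Polynomial.X ^ (l : ℕ)

theorem fpq_ne {p q : Fin (n + 2) → Ω} (h0 : p 0 = q 0) (h1 : p 1 = q 1) (hne : p ≠ q) :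
    fpq p q ≠ 0 := by
  intro h
  apply hne
  funext i
  refine Fin.cases h0 (fun i => ?_) i
  refine Fin.cases ?_ (fun l => ?_) i
  · rw [Fin.succ_zero_eq_one]
    exact h1
  · have h2 : (fpq p q).coeff (l : ℕ) = p l.succ.succ - q l.succ.succ := by
      unfold fpq
      rw [Polynomial.finsetSum_coeff, Finset.sum_eq_single l]
      · rw [Polynomial.coeff_C_mul_X_pow, if_pos rfl]
      · intro b _ hb
        rw [Polynomial.coeff_C_mul_X_pow, if_neg]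
        intro h3
        exact hb (Fin.ext h3.symm)
      · intro h3
        exact absurd (Finset.mem_univ l) h3
    rw [h, Polynomial.coeff_zero] at h2
    exact sub_eq_zero.1 h2.symm

theorem fpq_eval (p q : Fin (n + 2) → Ω) (t : Ω) (h : pr t p = pr t q) : (fpq p q).eval t = 0 := by
  have h2 : ∑ l : Fin n, t ^ (l : ℕ) * p l.succ.succ = ∑ l : Fin n, t ^ (l : ℕ) * q l.succ.succ :=
    congrFun h 1
  unfold fpq
  rw [Polynomial.eval_finsetSum]
  have h3 : ∀ l : Fin n, (Polynomial.C (p l.succ.succ - q l.succ.succ) *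
      Polynomial.X ^ (l : ℕ)).eval t = t ^ (l : ℕ) * p l.succ.succ - t ^ (l : ℕ) * q l.succ.succ := by
    intro l
    rw [Polynomial.eval_mul, Polynomial.eval_C, Polynomial.eval_pow, Polynomial.eval_X]
    ring
  rw [Finset.sum_congr rfl fun l _ => h3 l, Finset.sum_sub_distrib, h2, sub_self]

/-- good projections -/
theorem exists_prj [CharZero Ω] (hC : Conf r κ m N d c g on cyc A) :
    ∃ (t : Ω) (G : Fin r → MvPolynomial (Fin 2) Ω),
      Prj (Gam c cyc) g on A t G ∧ Set.InjOn (pr (n := n) t) (Gam c cyc) := by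
  classical
  have hG0 := conf_gam0 hC
  obtain ⟨bad, hbad⟩ := hC.proj (Gam c cyc) hG0
  obtain ⟨bad2, hbad2⟩ : ∃ bad2 : Finset Ω, bad2 = ((Gam c cyc) ×ˢ (Gam c cyc)).biUnion
      fun q => (fpq q.1 q.2).roots.toFinset := ⟨_, rfl⟩
  obtain ⟨t, ht⟩ : ∃ t : Ω, t ∉ bad ∪ bad2 := Infinite.exists_notMem_finset _
  rw [Finset.notMem_union] at ht
  obtain ⟨G, hG⟩ := hbad _ ht.1
  refine ⟨t, G, hG, ?_⟩
  intro p hp q hq hpq
  by_contra hne
  apply ht.2
  rw [hbad2]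
  refine Finset.mem_biUnion.2 ⟨(p, q), Finset.mem_product.2 ⟨hp, hq⟩, ?_⟩
  rw [Multiset.mem_toFinset, Polynomial.mem_roots (fpq_ne ((hG0 p hp).trans (hG0 q hq).symm)
    (congrFun hpq 0) hne)]
  exact fpq_eval p q t hpq

/-- **Step I.** The points lie on curves of total degree at most `N`. -/
theorem stepI (hA2 : StA2) (hSP : StSP) [IsAlgClosed Ω] [CharZero Ω]
    (hC : Conf r κ m N d c g on cyc A) (hp : Prj (Gam c cyc) g on A t G)
    (hinj : Set.InjOn (pr (n := n) t) (Gam c cyc)) :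
    ∃ I : Finset (Fin r), ∑ i ∈ I, g i ≤ N ∧ ∀ p, c p ≠ 0 → ∃ i ∈ I, on i p := by
  classical
  have hm := hC.hm
  obtain ⟨T, hT0, hTd, hT⟩ := hA2 Ω (Fin (n + 2) → Ω) c.support (pr t)
    (fun p => (c p : Ω) * κ p) m N
    hm hC.hcard
    (fun p h q h' => hinj (conf_c0 hC p (Finsupp.mem_support_iff.1 h)).1
      (conf_c0 hC q (Finsupp.mem_support_iff.1 h')).1)
    (fun p h => mul_ne_zero (Int.cast_ne_zero.2 (Finsupp.mem_support_iff.1 h))
      (hC.hc0 p (Finsupp.mem_support_iff.1 h)).2)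
    (toPlane hC.hcr (fun p h => (hC.hc0 p h).1) t)
  obtain ⟨I, hI⟩ : ∃ I : Finset (Fin r), I = Finset.univ.filter fun i => G i ∣ T := ⟨_, rfl⟩
  have hImem : ∀ i, i ∈ I ↔ G i ∣ T := by
    intro i
    rw [hI, Finset.mem_filter]
    simp
  obtain ⟨H, hH⟩ : ∃ H, H = ∏ i ∈ I, G i := ⟨_, rfl⟩
  have hHdvd : H ∣ T := by
    rw [hH]
    refine Finset.prod_dvd_of_isRelPrime ?_ fun i hi => (hImem i).1 hi
    intro i _ j _ hij
    refine relPrime_of_not_dvd (hp.irr i) fun h => ?_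
    exact hp.assoc i j hij ((hp.irr i).associated_of_dvd (hp.irr j) h)
  have hHd : H.totalDegree = ∑ i ∈ I, g i := by
    rw [hH, td_prod _ _ fun i _ => (hp.irr i).ne_zero]
    exact Finset.sum_congr rfl fun i _ => hp.deg i
  obtain ⟨Q0, hQ0⟩ := hHdvd
  have hH0 : H ≠ 0 := by
    rintro rfl
    exact hT0 (by rw [hQ0, zero_mul])
  have hQ00 : Q0 ≠ 0 := by
    rintro rfl
    exact hT0 (by rw [hQ0, mul_zero])
  have hTdeg : H.totalDegree + Q0.totalDegree ≤ N := by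
    rw [← totalDegree_mul_of_isDomain hH0 hQ00, ← hQ0]
    exact hTd
  refine ⟨I, by omega, ?_⟩
  by_contra hcon
  push Not at hcon
  obtain ⟨p0, hp0, hp1⟩ := hcon
  have hHev : ∀ p ∈ Gam c cyc, eval (pr t p) H = 0 ↔ ∃ i ∈ I, on i p := by
    intro p hpG
    rw [hH, map_prod, Finset.prod_eq_zero_iff]
    constructor
    · rintro ⟨i, hi, h⟩
      exact ⟨i, hi, (hp.iff i p hpG).1 h⟩
    · rintro ⟨i, hi, h⟩
      exact ⟨i, hi, (hp.iff i p hpG).2 h⟩
  obtain ⟨Y, hY⟩ : ∃ Y, Y = c.support.filter fun p => eval (pr t p) H ≠ 0 := ⟨_, rfl⟩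
  have hYm : ∀ p, p ∈ Y ↔ c p ≠ 0 ∧ eval (pr t p) H ≠ 0 := by
    intro p
    rw [hY, Finset.mem_filter, Finsupp.mem_support_iff]
  have hp0Y : p0 ∈ Y := by
    rw [hYm]
    refine ⟨hp0, fun h => ?_⟩
    obtain ⟨i, hi, h1⟩ := (hHev p0 (conf_c0 hC p0 hp0).1).1 h
    exact hp1 i hi h1
  -- minimal equation of the other points
  obtain ⟨Q, hQ1, hQ2, hQ3, hQ4⟩ : ∃ Q : MvPolynomial (Fin 2) Ω, Q ≠ 0 ∧ Q ∣ Q0 ∧
      (∀ p ∈ Y, eval (pr t p) Q = 0) ∧ ∀ Q', Q' ≠ 0 → Q' ∣ Q0 →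
      (∀ p ∈ Y, eval (pr t p) Q' = 0) → Q.totalDegree ≤ Q'.totalDegree := by
    have hex : ∃ (n : ℕ) (Q : MvPolynomial (Fin 2) Ω), Q.totalDegree = n ∧ Q ≠ 0 ∧ Q ∣ Q0 ∧
        ∀ p ∈ Y, eval (pr t p) Q = 0 := by
      refine ⟨_, Q0, rfl, hQ00, dvd_rfl, fun p hpY => ?_⟩
      rw [hYm] at hpY
      have h1 := hT p (Finsupp.mem_support_iff.2 hpY.1)
      rw [hQ0, map_mul] at h1
      exact (mul_eq_zero.1 h1).resolve_left hpY.2
    obtain ⟨Q, h1, h2, h3, h4⟩ := Nat.find_spec hex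
    refine ⟨Q, h2, h3, h4, fun Q' h5 h6 h7 => ?_⟩
    rw [h1]
    exact Nat.find_min' hex ⟨Q', rfl, h5, h6, h7⟩
  have hQG : ∀ i, ¬ G i ∣ Q := by
    intro i hi
    obtain ⟨R, hR⟩ := hi
    have hR0 : R ≠ 0 := by
      rintro rfl
      exact hQ1 (by rw [hR, mul_zero])
    have hiI : i ∈ I := by
      rw [hImem]
      exact (Dvd.intro R hR.symm).trans (hQ2.trans (Dvd.intro_left H hQ0.symm))
    have h1 := hQ4 R hR0 ((Dvd.intro_left (G i) hR.symm).trans hQ2) (fun p hpY => by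
      have h2 := hQ3 p hpY
      rw [hR, map_mul] at h2
      refine (mul_eq_zero.1 h2).resolve_left fun h3 => ?_
      rw [hYm] at hpY
      exact hpY.2 ((hHev p (conf_c0 hC p hpY.1).1).2 ⟨i, hiI, (hp.iff i p (conf_c0 hC p hpY.1).1).1 h3⟩))
    have h2 : Q.totalDegree = (G i).totalDegree + R.totalDegree := by
      rw [hR, totalDegree_mul_of_isDomain (hp.irr i).ne_zero hR0]
    have h3 := one_le_td (hp.irr i)
    omega
  have hQd : H.totalDegree + Q.totalDegree ≤ N :=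
    (Nat.add_le_add_left (td_dvd hQ2 hQ00) _).trans hTdeg
  -- the points in space
  have hY1 : ∀ p ∈ Y, p 0 = 1 := fun p hpY => (hC.hc0 p ((hYm p).1 hpY).1).1
  have h1 := hSP n Ω (Y.image Fin.tail) (fun q => (c (Fin.cons (1 : Ω) q : Fin (n + 2) → Ω) : Ω) *
      κ (Fin.cons (1 : Ω) q : Fin (n + 2) → Ω) *
    eval q (cyl n t H)) (m - H.totalDegree) A (cyl n t Q)
    (Finset.Nonempty.image ⟨p0, hp0Y⟩ _) (fun q hq => by
      obtain ⟨p, hpY, rfl⟩ := Finset.mem_image.1 hq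
      rw [cons_tl (hY1 p hpY), eval_cyl]
      have h2 := (hYm p).1 hpY
      exact mul_ne_zero (mul_ne_zero (Int.cast_ne_zero.2 h2.1) (hC.hc0 p h2.1).2) h2.2)
    (fun P hP => by
      rw [Finset.sum_image fun p hp q hq h => tl_inj (hY1 p hp) (hY1 q hq) h]
      have h2 := toSpace hC.hcr (fun p h => (hC.hc0 p h).1) (cyl n t H)
        (k := m - H.totalDegree) (by
          have := td_cyl (n := n) t H
          omega) P hP
      rw [← h2]
      have h3 : Y ⊆ c.support := by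
        rw [hY]
        exact Finset.filter_subset _ _
      rw [← Finset.sum_subset h3]
      · refine Finset.sum_congr rfl fun p hpY => ?_
        rw [cons_tl (hY1 p hpY)]
      · intro p hpc hpY
        rw [hYm] at hpY
        push Not at hpY
        rw [eval_cyl, hpY (Finsupp.mem_support_iff.1 hpc), mul_zero, zero_mul])
    hC.hA hC.hA1 (fun q hq => by
      obtain ⟨p, hpY, rfl⟩ := Finset.mem_image.1 hq
      have h2 := (hYm p).1 hpY
      refine ⟨fun l => ?_, ?_⟩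
      · exact hC.hAc p h2.1 l
      · rw [eval_cyl]
        exact hQ3 p hpY)
    (by
      refine ((hp.fin Q hQG).image Fin.tail).subset ?_
      rintro q ⟨h2, h4⟩
      have h5 : Fin.tail (Fin.cons (1 : Ω) q : Fin (n + 2) → Ω) = q := Fin.tail_cons _ _
      refine ⟨Fin.cons (1 : Ω) q, ⟨rfl, fun l => ?_, ?_⟩, h5⟩
      · exact h2 l
      · rw [← eval_cyl, h5]
        exact h4)
  have h2 := td_cyl (n := n) t Q
  have h3 : ∑ l, (A l).totalDegree ≤ n * N := by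
    refine (Finset.sum_le_card_nsmul _ _ N fun l _ => hC.hAN l).trans ?_
    simp
  have h4 := hC.hN
  have h5 := hC.hd
  have h6 : (n + 1) * N = n * N + N := by ring
  omega

/-- minimal subsets of curves -/
theorem exists_min (I : Finset (Fin r)) (w : (Fin (n + 2) → Ω) →₀ ℤ)
    (hI : ∀ p, w p ≠ 0 → ∃ i ∈ I, on i p) :
    ∃ J ⊆ I, (∀ p, w p ≠ 0 → ∃ i ∈ J, on i p) ∧
      ∀ j ∈ J, ∃ p, w p ≠ 0 ∧ ∀ i ∈ J, i ≠ j → ¬ on i p := by
  classical
  obtain ⟨J, hJ, hJmin⟩ := Finset.exists_min_image (I.powerset.filter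
      fun J => ∀ p, w p ≠ 0 → ∃ i ∈ J, on i p) Finset.card ⟨I, by
        rw [Finset.mem_filter]
        exact ⟨Finset.mem_powerset_self I, hI⟩⟩
  rw [Finset.mem_filter, Finset.mem_powerset] at hJ
  refine ⟨J, hJ.1, hJ.2, ?_⟩
  intro j hj
  by_contra hcon
  push Not at hcon
  have h1 := hJmin (J.erase j) (by
    rw [Finset.mem_filter, Finset.mem_powerset]
    refine ⟨(Finset.erase_subset _ _).trans hJ.1, ?_⟩
    intro p hp
    obtain ⟨i, hi, hij, h⟩ := hcon p hp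
    exact ⟨i, Finset.mem_erase.2 ⟨hij, hi⟩, h⟩)
  rw [Finset.card_erase_of_mem hj] at h1
  have h2 := Finset.card_pos.2 ⟨j, hj⟩
  omega

theorem prj_sub (hp : Prj Γ g on A t G) (j : Fin r) (hj : j ∈ J) :
    (∏ i ∈ J.erase j, G i).totalDegree + g j = ∑ i ∈ J, g i := by
  rw [td_prod _ _ fun i _ => (hp.irr i).ne_zero, ← Finset.add_sum_erase J g hj, add_comm]
  congr 1
  exact Finset.sum_congr rfl fun i _ => hp.deg i

theorem prj_eval_prod (hp : Prj Γ g on A t G) {j : Fin r} {p : Fin (n + 2) → Ω}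
    (hpG : p ∈ Γ) :
    eval (pr t p) (∏ i ∈ J.erase j, G i) = 0 ↔ ∃ i ∈ J, i ≠ j ∧ on i p := by
  rw [map_prod, Finset.prod_eq_zero_iff]
  constructor
  · rintro ⟨i, hi, h⟩
    rw [Finset.mem_erase] at hi
    exact ⟨i, hi.2, hi.1, (hp.iff i p hpG).1 h⟩
  · rintro ⟨i, hi, hij, h⟩
    exact ⟨i, Finset.mem_erase.2 ⟨hij, hi⟩, (hp.iff i p hpG).2 h⟩

open Classical in
/-- the points of `w` on the curve `j` only -/
noncomputable def only (J : Finset (Fin r)) (on : Fin r → (Fin (n + 2) → Ω) → Prop)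
    (w : (Fin (n + 2) → Ω) →₀ ℤ) (j : Fin r) : Finset (Fin (n + 2) → Ω) :=
  w.support.filter fun p => ∀ i ∈ J, i ≠ j → ¬ on i p

theorem mem_only {w : (Fin (n + 2) → Ω) →₀ ℤ} {j : Fin r} {p : Fin (n + 2) → Ω} :
    p ∈ only J on w j ↔ w p ≠ 0 ∧ ∀ i ∈ J, i ≠ j → ¬ on i p := by
  classical
  unfold only
  rw [Finset.mem_filter, Finsupp.mem_support_iff]

/-- the relation on one curve -/
theorem prj_rel_only (hp : Prj Γ g on A t G) {w : (Fin (n + 2) → Ω) →₀ ℤ}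
    (hw : Rel m κ w) (hw0 : ∀ p, w p ≠ 0 → p ∈ Γ ∧ p 0 = 1 ∧ κ p ≠ 0)
    {k : ℕ} {j : Fin r} (hk : (∏ i ∈ J.erase j, G i).totalDegree + k ≤ m) :
    PRel k (only J on w j) (pr t)
      (fun p => (w p : Ω) * κ p * eval (pr t p) (∏ i ∈ J.erase j, G i)) := by
  refine mulH (toPlane hw (fun p h => (hw0 p h).2.1) t) _ hk (fun p h => ?_) fun p h h' => ?_
  · rw [mem_only] at h
    exact Finsupp.mem_support_iff.2 h.1
  · rw [Finsupp.mem_support_iff] at h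
    rw [mem_only] at h'
    push Not at h'
    obtain ⟨i, hi, hij, h1⟩ := h' h
    exact (prj_eval_prod hp (hw0 p h).1).2 ⟨i, hi, hij, h1⟩

theorem prj_weight (hp : Prj Γ g on A t G) [CharZero Ω] {w : (Fin (n + 2) → Ω) →₀ ℤ}
    (hw0 : ∀ p, w p ≠ 0 → p ∈ Γ ∧ p 0 = 1 ∧ κ p ≠ 0) {j : Fin r} {p : Fin (n + 2) → Ω}
    (h : p ∈ only J on w j) : (w p : Ω) * κ p * eval (pr t p) (∏ i ∈ J.erase j, G i) ≠ 0 := by
  rw [mem_only] at h
  refine mul_ne_zero (mul_ne_zero (Int.cast_ne_zero.2 h.1) (hw0 p h.1).2.2) fun h1 => ?_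
  obtain ⟨i, hi, hij, h2⟩ := (prj_eval_prod hp (hw0 p h.1).1).1 h1
  exact h.2 i hi hij h2

theorem inj_only (hinj : Set.InjOn (pr (n := n) t) (Γ : Set (Fin (n + 2) → Ω)))
    {w : (Fin (n + 2) → Ω) →₀ ℤ}
    (hw0 : ∀ p, w p ≠ 0 → p ∈ Γ ∧ p 0 = 1 ∧ κ p ≠ 0) {j : Fin r} :
    Set.InjOn (pr (n := n) t) (only J on w j) := by
  intro p h q h'
  rw [Finset.mem_coe, mem_only] at h h'
  exact hinj (hw0 p h.1).1 (hw0 q h'.1).1

/-- number of points of a cycle on one curve -/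
theorem prj_card_only (hA3 : StA3) [IsAlgClosed Ω] [CharZero Ω] (hn : 1 ≤ n)
    (hd : m + n + 2 = d) (hm : 7 * N + 4 ≤ m) (hp : Prj Γ g on A t G)
    (hinj : Set.InjOn (pr (n := n) t) (Γ : Set (Fin (n + 2) → Ω))) (he : ∑ i ∈ J, g i ≤ N)
    {w : (Fin (n + 2) → Ω) →₀ ℤ} (hw : Rel m κ w)
    (hw0 : ∀ p, w p ≠ 0 → p ∈ Γ ∧ p 0 = 1 ∧ κ p ≠ 0) {j : Fin r} (hj : j ∈ J)
    (hon : ∀ p ∈ only J on w j, on j p) (hne : (only J on w j).Nonempty) :
    g j * d ≤ (only J on w j).card + g j * (n - 1 + ∑ i ∈ J, g i) := by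
  have hsub := prj_sub hp j hj
  obtain ⟨h, hh⟩ : ∃ h, h = (∏ i ∈ J.erase j, G i).totalDegree := ⟨_, rfl⟩
  rw [← hh] at hsub
  have hhm : h ≤ m := by omega
  have h1 := hA3 Ω (Fin (n + 2) → Ω) (only J on w j) (pr t) _ (m - h) (G j) hne
    (inj_only hinj hw0) (fun p h => prj_weight hp hw0 h)
    (prj_rel_only hp hw hw0 (by rw [← hh]; omega)) (hp.irr j) (fun p hpp => by
      have h2 := hon p hpp
      rw [mem_only] at hpp
      exact (hp.iff j p (hw0 p hpp.1).1).2 h2) (by rw [hp.deg]; omega)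
  rw [hp.deg] at h1
  obtain ⟨k, hk⟩ : ∃ k, m = h + k := ⟨m - h, by omega⟩
  have h2 : m - h = k := by omega
  rw [h2] at h1
  obtain ⟨n', hn'⟩ : ∃ n', n = n' + 1 := ⟨n - 1, by omega⟩
  have h3 : d = h + k + n' + 3 := by omega
  have h4 : ∑ i ∈ J, g i = h + g j := by omega
  have h5 : n - 1 = n' := by omega
  rw [h3, h4, h5]
  nlinarith

/-- points of `w` on the curve `j` only are on `j` -/
theorem on_only {w : (Fin (n + 2) → Ω) →₀ ℤ} (hon : ∀ p, w p ≠ 0 → ∃ i ∈ J, on i p)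
    (j : Fin r) : ∀ p ∈ only J on w j, on j p := by
  intro p h
  rw [mem_only] at h
  obtain ⟨i, hi, hi'⟩ := hon p h.1
  have hij : i = j := by
    by_contra hij
    exact h.2 i hi hij hi'
  rwa [← hij]

theorem le_of_mem (he : ∑ i ∈ J, g i ≤ N) {j : Fin r} (hj : j ∈ J) : g j ≤ N :=
  (Finset.single_le_sum (f := g) (fun _ _ => Nat.zero_le _) hj).trans he

end

end Pool.Agent.N543.HN
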