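import Pool.Agent.N543.HN.Comb

/-!
# HN/MAIN (helper543, port of CW/Comb2, CW/Comb4 of helper162): a cycle with a relation of high degree
is a combination of the cycles of few curves

The constant in the number of points on one curve is `n - 1` (for `n = 2` it is `1`).
-/

set_option autoImplicit false
set_option linter.unusedSectionVars false

open MvPolynomial

namespace Pool.Agent.N543.HN

open Pool.Agent.N162.HN
open Pool.Agent.N162.CV (PRel MonicY StA3 StBEZ td_prod td_dvd relPrime_of_not_dvd one_le_td mulH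
  sum_ge)
open Pool.Agent.N162.CW (StA2)

section

variable {n : ℕ} {Ω : Type} [Field Ω]
variable {r : ℕ} {κ : (Fin (n + 2) → Ω) → Ω} {m N d : ℕ} {c : (Fin (n + 2) → Ω) →₀ ℤ}
  {g : Fin r → ℕ}
  {on : Fin r → (Fin (n + 2) → Ω) → Prop} {cyc : Fin r → (Fin (n + 2) → Ω) →₀ ℤ}
  {A : Fin n → MvPolynomial (Fin 2) Ω} {t : Ω} {J : Finset (Fin r)}
  {G : Fin r → MvPolynomial (Fin 2) Ω}

/-- a value which is taken often -/
theorem of_value (hC : Conf r κ m N d c g on cyc A)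
    (hcov : ∀ p, c p ≠ 0 → ∃ i ∈ J, on i p) {j : Fin r} (hgj : g j ≤ N) {a : ℤ}
    (ha2 : g j * (n - 1 + ∑ i ∈ J, g i) < ((only J on c j).filter fun p => c p = a).card) :
    ∀ B : Finset (Fin (n + 2) → Ω), (∀ p ∈ B, p ∈ Gam c cyc ∧ on j p ∧
      (∀ i ∈ J, i ≠ j → ¬ on i p) ∧ c p ≠ a * cyc j p) →
      B.card + g j * (n - 1 + ∑ i ∈ J, g i) < g j * d := by
  classical
  intro B hB
  have honj := on_only hcov j
  obtain ⟨Y, hY⟩ : ∃ Y, Y = (only J on c j).filter fun p => c p = a := ⟨_, rfl⟩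
  rw [← hY] at ha2
  have h5 := hC.cycdeg j (B ∪ Y)
  have h6 : ∀ p ∈ B ∪ Y, (1 : ℤ) + (if p ∈ B ∧ p ∈ Y then 1 else 0) ≤ cyc j p := by
    intro p hpp
    have hnn := hC.cycnn j p
    have hpos : cyc j p ≠ 0 := by
      rcases Finset.mem_union.1 hpp with h | h
      · obtain ⟨h7, h8, h9, h10⟩ := hB p h
        intro h11
        rw [h11, mul_zero] at h10
        exact hC.hcy j p hgj h10 h8 h11
      · rw [hY, Finset.mem_filter] at h
        exact hC.hcy j p hgj (mem_only.1 h.1).1 (honj p h.1)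
    split_ifs with h
    · obtain ⟨h7, h8, h9, h10⟩ := hB p h.1
      have h11 := h.2
      rw [hY, Finset.mem_filter] at h11
      have h12 : cyc j p ≠ 1 := by
        intro h12
        rw [h12, mul_one] at h10
        exact h10 h11.2
      omega
    · omega
  have h7 := Finset.sum_le_sum h6
  rw [Finset.sum_add_distrib] at h7
  have h8 : ∑ p ∈ B ∪ Y, (if p ∈ B ∧ p ∈ Y then (1 : ℤ) else 0) = (B ∩ Y).card := by
    rw [← Finset.sum_filter, Finset.sum_const, nsmul_eq_mul, mul_one]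
    congr 2
    ext p
    simp only [Finset.mem_filter, Finset.mem_union, Finset.mem_inter]
    tauto
  rw [h8, Finset.sum_const, nsmul_eq_mul, mul_one] at h7
  have h9 := Finset.card_union_add_card_inter B Y
  have h10 : ((B ∪ Y).card : ℤ) + (B ∩ Y).card = B.card + Y.card := by exact_mod_cast h9
  have h11 : (B.card + Y.card : ℤ) ≤ (g j * d : ℕ) := by linarith
  have h12 : B.card + Y.card ≤ g j * d := by exact_mod_cast h11
  omega

/-- **Step II**, few multiplicities. -/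
theorem stepIIa (hA3 : StA3) [IsAlgClosed Ω] [CharZero Ω]
    (hC : Conf r κ m N d c g on cyc A) (hp : Prj (Gam c cyc) g on A t G)
    (hinj : Set.InjOn (pr (n := n) t) (Gam c cyc)) (he : ∑ i ∈ J, g i ≤ N)
    (hcov : ∀ p, c p ≠ 0 → ∃ i ∈ J, on i p)
    {v : ℕ} (hv : (c.support.image c).card ≤ v)
    (hvN : (v + 1) * (N + n - 1) < d) (j : Fin r) (hj : j ∈ J)
    (hmin : ∃ p, c p ≠ 0 ∧ ∀ i ∈ J, i ≠ j → ¬ on i p) :
    ∃ a : ℤ, ∀ B : Finset (Fin (n + 2) → Ω), (∀ p ∈ B, p ∈ Gam c cyc ∧ on j p ∧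
      (∀ i ∈ J, i ≠ j → ¬ on i p) ∧ c p ≠ a * cyc j p) →
      B.card + g j * (n - 1 + ∑ i ∈ J, g i) < g j * d := by
  classical
  obtain ⟨p0, hp0, hp1⟩ := hmin
  have hn := hC.hn
  have hgj : 1 ≤ g j := by
    rw [← hp.deg]
    exact one_le_td (hp.irr j)
  have honj := on_only hcov j
  have h1 := prj_card_only hA3 hC.hn hC.hd hC.hm hp hinj he hC.hcr (conf_c0 hC) hj honj
    ⟨p0, mem_only.2 ⟨hp0, hp1⟩⟩
  have hgN := le_of_mem he hj
  obtain ⟨a, ha, ha2⟩ : ∃ a ∈ c.support.image c,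
      g j * (n - 1 + ∑ i ∈ J, g i) < ((only J on c j).filter fun p => c p = a).card := by
    refine Finset.exists_lt_card_fiber_of_mul_lt_card_of_maps_to (fun p h => ?_) ?_
    · rw [mem_only] at h
      exact Finset.mem_image_of_mem _ (Finsupp.mem_support_iff.2 h.1)
    · obtain ⟨e, hedef⟩ : ∃ e, e = ∑ i ∈ J, g i := ⟨_, rfl⟩
      rw [← hedef] at h1 he ⊢
      have h2 : (c.support.image c).card * (g j * (n - 1 + e)) ≤ v * (g j * (n - 1 + e)) :=
        Nat.mul_le_mul_right _ hv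
      have h3 : (v + 1) * (n - 1 + e) < d := by
        refine lt_of_le_of_lt ?_ hvN
        exact Nat.mul_le_mul_left _ (by omega)
      have h4 : g j * ((v + 1) * (n - 1 + e)) < g j * d :=
        Nat.mul_lt_mul_of_pos_left h3 (by omega)
      have h5 : g j * ((v + 1) * (n - 1 + e)) = v * (g j * (n - 1 + e)) + g j * (n - 1 + e) := by
        ring
      omega
  exact ⟨a, of_value hC hcov hgN ha2⟩

/-- **Step II**, bounded total degree. -/
theorem stepIIc (hA3 : StA3) [IsAlgClosed Ω] [CharZero Ω]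
    (hC : Conf r κ m N d c g on cyc A) (hp : Prj (Gam c cyc) g on A t G)
    (hinj : Set.InjOn (pr (n := n) t) (Gam c cyc)) (he : ∑ i ∈ J, g i ≤ N)
    (hcov : ∀ p, c p ≠ 0 → ∃ i ∈ J, on i p)
    {L : ℕ} (hL : ∑ p ∈ c.support, (c p).natAbs + (N + n - 1) * L ^ 2 < L * d)
    (j : Fin r) (hj : j ∈ J)
    (hmin : ∃ p, c p ≠ 0 ∧ ∀ i ∈ J, i ≠ j → ¬ on i p) :
    ∃ a : ℤ, ∀ B : Finset (Fin (n + 2) → Ω), (∀ p ∈ B, p ∈ Gam c cyc ∧ on j p ∧
      (∀ i ∈ J, i ≠ j → ¬ on i p) ∧ c p ≠ a * cyc j p) →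
      B.card + g j * (n - 1 + ∑ i ∈ J, g i) < g j * d := by
  classical
  obtain ⟨p0, hp0, hp1⟩ := hmin
  have hn := hC.hn
  have hgj : 1 ≤ g j := by
    rw [← hp.deg]
    exact one_le_td (hp.irr j)
  have honj := on_only hcov j
  have h1 := prj_card_only hA3 hC.hn hC.hd hC.hm hp hinj he hC.hcr (conf_c0 hC) hj honj
    ⟨p0, mem_only.2 ⟨hp0, hp1⟩⟩
  have hgN := le_of_mem he hj
  by_contra hno
  push Not at hno
  have h2 : ∀ a : ℤ, ((only J on c j).filter fun p => c p = a).card ≤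
      g j * (n - 1 + ∑ i ∈ J, g i) := by
    intro a
    by_contra h
    push Not at h
    obtain ⟨B, hB, hB'⟩ := hno a
    have := of_value hC hcov hgN h B hB
    omega
  have h3 := sum_ge (only J on c j) c (fun p hpp => (mem_only.1 hpp).1) h2 L
  have h4 : ∑ p ∈ only J on c j, (c p).natAbs ≤ ∑ p ∈ c.support, (c p).natAbs :=
    Finset.sum_le_sum_of_subset fun p hpp => Finsupp.mem_support_iff.2 (mem_only.1 hpp).1
  obtain ⟨e, hedef⟩ : ∃ e, e = n - 1 + ∑ i ∈ J, g i := ⟨_, rfl⟩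
  have he' : e ≤ N + n - 1 := by omega
  rw [← hedef] at h1 h3
  obtain ⟨s, hs⟩ : ∃ s, s = ∑ p ∈ c.support, (c p).natAbs := ⟨_, rfl⟩
  rw [← hs] at h4 hL
  obtain ⟨M, hM⟩ : ∃ M, M = N + n - 1 := ⟨_, rfl⟩
  rw [← hM] at hL he'
  obtain ⟨x, hx⟩ : ∃ x, x = (only J on c j).card := ⟨_, rfl⟩
  rw [← hx] at h1 h3
  have h5 : L * (g j * d) ≤ L * x + L * (g j * e) := by
    rw [← mul_add]
    exact Nat.mul_le_mul_left _ h1
  have h6 : L * (g j * d) ≤ s + g j * e * (L * (L - 1)) + L * (g j * e) := by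
    refine h5.trans (Nat.add_le_add_right (h3.trans (Nat.add_le_add_right h4 _)) _)
  have h7 : g j * e * (L * (L - 1)) + L * (g j * e) = g j * e * L ^ 2 := by
    rcases L with _ | L
    · simp
    · rw [Nat.add_sub_cancel]
      ring
  have h8 : g j * (L * d) ≤ s + g j * (M * L ^ 2) := by
    have h9 : g j * e * L ^ 2 ≤ g j * (M * L ^ 2) := by
      rw [mul_assoc]
      refine Nat.mul_le_mul_left _ (Nat.mul_le_mul_right _ he')
    calc g j * (L * d) = L * (g j * d) := by ring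
      _ ≤ s + g j * e * L ^ 2 := by rw [← h7, ← add_assoc]; exact h6
      _ ≤ _ := Nat.add_le_add_left h9 _
  have h9 : g j * (s + M * L ^ 2) < g j * (L * d) := Nat.mul_lt_mul_of_pos_left hL (by omega)
  have h10 : s ≤ g j * s := Nat.le_mul_of_pos_left _ (by omega)
  rw [mul_add] at h9
  omega

/-- the number of points on two curves -/
theorem card_two (hBEZ : StBEZ) [IsAlgClosed Ω] {Γ : Finset (Fin (n + 2) → Ω)}
    (hp : Prj Γ g on A t G) (hinj : Set.InjOn (pr (n := n) t) Γ) {i j : Fin r} (hij : i ≠ j)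
    (S : Finset (Fin (n + 2) → Ω)) (hS : ∀ p ∈ S, p ∈ Γ ∧ on i p ∧ on j p) :
    S.card ≤ g i * g j := by
  classical
  have h3 : S.card = (S.image (pr t)).card := by
    rw [Finset.card_image_of_injOn]
    intro p h p' h'
    exact hinj (hS p h).1 (hS p' h').1
  rw [h3]
  have h4 := hBEZ Ω (G i) (G j) (hp.irr _).ne_zero (hp.irr _).ne_zero
    (relPrime_of_not_dvd (hp.irr i) fun h => hp.assoc i j hij
      ((hp.irr i).associated_of_dvd (hp.irr j) h))
    (S.image (pr t)) (by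
      intro u hu
      rw [Finset.mem_image] at hu
      obtain ⟨p, h, rfl⟩ := hu
      exact ⟨(hp.iff _ p (hS p h).1).2 (hS p h).2.1, (hp.iff _ p (hS p h).1).2 (hS p h).2.2⟩)
  rwa [hp.deg, hp.deg] at h4

/-- **Step III.** -/
theorem stepIII (hA3 : StA3) (hBEZ : StBEZ) [IsAlgClosed Ω] [CharZero Ω]
    (hC : Conf r κ m N d c g on cyc A) (hp : Prj (Gam c cyc) g on A t G)
    (hinj : Set.InjOn (pr (n := n) t) (Gam c cyc)) (he : ∑ i ∈ J, g i ≤ N)
    (hcov : ∀ p, c p ≠ 0 → ∃ i ∈ J, on i p) (a : Fin r → ℤ)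
    (hII : ∀ j ∈ J, ∀ B : Finset (Fin (n + 2) → Ω), (∀ p ∈ B, p ∈ Gam c cyc ∧ on j p ∧
      (∀ i ∈ J, i ≠ j → ¬ on i p) ∧ c p ≠ a j * cyc j p) →
      B.card + g j * (n - 1 + ∑ i ∈ J, g i) < g j * d) :
    c = ∑ j ∈ J, a j • cyc j := by
  classical
  have hd := hC.hd
  have hm := hC.hm
  have hn := hC.hn
  obtain ⟨w, hw⟩ : ∃ w, w = c - ∑ j ∈ J, a j • cyc j := ⟨_, rfl⟩
  have hwr : Rel m κ w := by
    rw [hw]
    exact rel_sub hC.hcr (rel_sum J _ fun i => rel_zsmul (hC.cycr i) _)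
  have hwp : ∀ p, w p = c p - ∑ j ∈ J, a j * cyc j p := by
    intro p
    rw [hw, Finsupp.sub_apply, Finset.sum_apply']
    simp [Finsupp.smul_apply]
  have hcase : ∀ p, w p ≠ 0 → c p ≠ 0 ∨ ∃ j ∈ J, cyc j p ≠ 0 := by
    intro p h
    by_contra hcon
    push Not at hcon
    apply h
    rw [hwp, hcon.1, Finset.sum_eq_zero fun j hj => by rw [hcon.2 j hj, mul_zero], sub_zero]
  have hw0 : ∀ p, w p ≠ 0 → p ∈ Gam c cyc ∧ p 0 = 1 ∧ κ p ≠ 0 := by
    intro p h
    rcases hcase p h with h1 | ⟨j, -, h1⟩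
    · exact conf_c0 hC p h1
    · exact conf_cy0 hC j p h1
  have hon : ∀ p, w p ≠ 0 → ∃ j ∈ J, on j p := by
    intro p h
    rcases hcase p h with h1 | ⟨j, hj, h1⟩
    · exact hcov p h1
    · exact ⟨j, hj, (hC.cyc0 j p h1).2.2⟩
  have hempty : ∀ j ∈ J, only J on w j = ∅ := by
    intro j hj
    by_contra hne
    have honj := on_only hon j
    have h1 := prj_card_only hA3 hn hd hm hp hinj he hwr hw0 hj honj
      (Finset.nonempty_iff_ne_empty.2 hne)
    have h2 := hII j hj (only J on w j) fun p h => by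
      have h3 := honj p h
      rw [mem_only] at h
      refine ⟨(hw0 p h.1).1, h3, h.2, fun h4 => ?_⟩
      apply h.1
      rw [hwp, h4, Finset.sum_eq_single_of_mem j hj, sub_self]
      intro i hi hij
      have h5 : cyc i p = 0 := by
        by_contra h5
        exact h.2 i hi hij (hC.cyc0 i p h5).2.2
      rw [h5, mul_zero]
    omega
  have hw1 : w = 0 := by
    by_contra hwne
    obtain ⟨J', hJ', hcov', hmin'⟩ := exists_min J w hon
    obtain ⟨p1, hp1⟩ := Finsupp.support_nonempty_iff.2 hwne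
    obtain ⟨j, hj, -⟩ := hcov' p1 (Finsupp.mem_support_iff.1 hp1)
    obtain ⟨p0, hp0, hp0'⟩ := hmin' j hj
    have he' : ∑ i ∈ J', g i ≤ ∑ i ∈ J, g i := Finset.sum_le_sum_of_subset hJ'
    have h1 := prj_card_only hA3 hn hd hm hp hinj (he'.trans he) hwr hw0 hj (on_only hcov' j)
      ⟨p0, mem_only.2 ⟨hp0, hp0'⟩⟩
    have hjJ := hJ' hj
    -- the points are on another curve
    have hcard : (only J' on w j).card ≤ ∑ i ∈ J.erase j, g j * g i := by
      have h2 : only J' on w j ⊆ (J.erase j).biUnion fun i => w.support.filter fun p =>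
          on j p ∧ on i p := by
        intro p hpp
        have h3 := on_only hcov' j p hpp
        rw [mem_only] at hpp
        have h4 : p ∉ only J on w j := by
          rw [hempty j hjJ]
          exact Finset.notMem_empty _
        rw [mem_only] at h4
        push Not at h4
        obtain ⟨i, hi, hij, hi'⟩ := h4 hpp.1
        rw [Finset.mem_biUnion]
        exact ⟨i, Finset.mem_erase.2 ⟨hij, hi⟩, Finset.mem_filter.2
          ⟨Finsupp.mem_support_iff.2 hpp.1, h3, hi'⟩⟩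
      refine (Finset.card_le_card h2).trans (Finset.card_biUnion_le.trans ?_)
      refine Finset.sum_le_sum fun i hi => ?_
      rw [Finset.mem_erase] at hi
      refine card_two hBEZ hp hinj (Ne.symm hi.1) _ fun p h => ?_
      rw [Finset.mem_filter, Finsupp.mem_support_iff] at h
      exact ⟨(hw0 p h.1).1, h.2.1, h.2.2⟩
    rw [← Finset.mul_sum] at hcard
    have h5 : ∑ i ∈ J.erase j, g i + g j = ∑ i ∈ J, g i := by
      rw [add_comm, Finset.add_sum_erase J g hjJ]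
    have hgj : 1 ≤ g j := by
      rw [← hp.deg]
      exact one_le_td (hp.irr j)
    have h6 : g j * d ≤ g j * (∑ i ∈ J.erase j, g i + (n - 1 + ∑ i ∈ J', g i)) := by
      rw [mul_add]
      omega
    have h7 := Nat.le_of_mul_le_mul_left h6 hgj
    omega
  rw [hw] at hw1
  exact sub_eq_zero.1 hw1

/-- the curves, the coefficients and the projection -/
theorem coreN (hA2 : StA2) (hSP : StSP) (hA3 : StA3) (hBEZ : StBEZ) [IsAlgClosed Ω] [CharZero Ω]
    (hC : Conf r κ m N d c g on cyc A)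
    (hab : (∃ L : ℕ, ∑ p ∈ c.support, (c p).natAbs + (N + n - 1) * L ^ 2 < L * d) ∨
      ((c.support.image c).card + 1) * (N + n - 1) < d) :
    ∃ (t : Ω) (G : Fin r → MvPolynomial (Fin 2) Ω) (J : Finset (Fin r)) (a : Fin r → ℤ),
      Prj (Gam c cyc) g on A t G ∧ Set.InjOn (pr (n := n) t) (Gam c cyc) ∧
      ∑ i ∈ J, g i ≤ N ∧ (∀ p, c p ≠ 0 → ∃ i ∈ J, on i p) ∧
      (∀ j ∈ J, ∃ p, c p ≠ 0 ∧ ∀ i ∈ J, i ≠ j → ¬ on i p) ∧ c = ∑ j ∈ J, a j • cyc j := by
  classical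
  obtain ⟨t, G, hp, hinj⟩ := exists_prj hC
  obtain ⟨I, hIN, hI⟩ := stepI hA2 hSP hC hp hinj
  obtain ⟨J, hJ, hcov, hmin⟩ := exists_min I c hI
  have he : ∑ i ∈ J, g i ≤ N := (Finset.sum_le_sum_of_subset hJ).trans hIN
  have h1 : ∀ j, ∃ a : ℤ, j ∈ J → ∀ B : Finset (Fin (n + 2) → Ω), (∀ p ∈ B, p ∈ Gam c cyc ∧
      on j p ∧ (∀ i ∈ J, i ≠ j → ¬ on i p) ∧ c p ≠ a * cyc j p) →
      B.card + g j * (n - 1 + ∑ i ∈ J, g i) < g j * d := by
    intro j
    by_cases hj : j ∈ J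
    · obtain ⟨a, ha⟩ : ∃ a : ℤ, ∀ B : Finset (Fin (n + 2) → Ω), (∀ p ∈ B, p ∈ Gam c cyc ∧ on j p ∧
          (∀ i ∈ J, i ≠ j → ¬ on i p) ∧ c p ≠ a * cyc j p) →
          B.card + g j * (n - 1 + ∑ i ∈ J, g i) < g j * d := by
        rcases hab with ⟨L, hL⟩ | hv
        · exact stepIIc hA3 hC hp hinj he hcov hL j hj (hmin j hj)
        · exact stepIIa hA3 hC hp hinj he hcov le_rfl hv j hj (hmin j hj)
      exact ⟨a, fun _ => ha⟩
    · exact ⟨0, fun h => absurd h hj⟩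
  choose a ha using h1
  exact ⟨t, G, J, a, hp, hinj, he, hcov, hmin, stepIII hA3 hBEZ hC hp hinj he hcov a ha⟩

end

/-- HN/MAIN with the constant `N + n - 1` in place of `N + 1` (equal for `n = 2`). -/
def StMAIN' : Prop := ∀ (n r : ℕ) (Ω : Type) [Field Ω] [IsAlgClosed Ω] [CharZero Ω]
  (κ : (Fin (n + 2) → Ω) → Ω) (m N d : ℕ) (c : (Fin (n + 2) → Ω) →₀ ℤ) (g : Fin r → ℕ)
  (on : Fin r → (Fin (n + 2) → Ω) → Prop) (cyc : Fin r → (Fin (n + 2) → Ω) →₀ ℤ)
  (A : Fin n → MvPolynomial (Fin 2) Ω), Conf r κ m N d c g on cyc A →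
  ((∃ L : ℕ, ∑ p ∈ c.support, (c p).natAbs + (N + n - 1) * L ^ 2 < L * d) ∨
    ((c.support.image c).card + 1) * (N + n - 1) < d) →
  ∃ (J : Finset (Fin r)) (a : Fin r → ℤ), ∑ i ∈ J, g i ≤ N ∧ c = ∑ j ∈ J, a j • cyc j

theorem main_' (hA2 : StA2) (hSP : StSP) (hA3 : StA3) (hBEZ : StBEZ) : StMAIN' := by
  intro n r Ω _ _ _ κ m N d c g on cyc A hC hab
  obtain ⟨t, G, J, a, -, -, he, -, -, h⟩ := coreN hA2 hSP hA3 hBEZ hC hab
  exact ⟨J, a, he, h⟩

end Pool.Agent.N543.HN
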