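import Pool.Agent.N543.HN.Main

/-!
# HN/HOM (helper543): reduced cycles

The extra hypothesis is `2 * (N + n - 1) < d`.
-/

set_option autoImplicit false
set_option linter.unusedSectionVars false

open MvPolynomial

namespace Pool.Agent.N543.HN

open Pool.Agent.N162.HN
open Pool.Agent.N162.CV (StA3 StBEZ one_le_td)
open Pool.Agent.N162.CW (StA2)

/-- HN/HOM with the extra hypothesis `2 * (N + n - 1) < d`. -/
def StHOM' : Prop := ∀ (n r : ℕ) (Ω : Type) [Field Ω] [IsAlgClosed Ω] [CharZero Ω]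
  (κ : (Fin (n + 2) → Ω) → Ω) (m N d : ℕ) (c : (Fin (n + 2) → Ω) →₀ ℤ) (g : Fin r → ℕ)
  (on : Fin r → (Fin (n + 2) → Ω) → Prop) (cyc : Fin r → (Fin (n + 2) → Ω) →₀ ℤ)
  (A : Fin n → MvPolynomial (Fin 2) Ω), Conf r κ m N d c g on cyc A → 2 * (N + n - 1) < d →
  c ≠ 0 → (∀ p, c p ≠ 0 → c p = 1) →
  (∀ p q, c p ≠ 0 → c q ≠ 0 →
    {i | g i * N < cnt c on i ∧ on i p}.ncard = {i | g i * N < cnt c on i ∧ on i q}.ncard) →
  ∃ J : Finset (Fin r), (∀ i, i ∈ J ↔ g i * N < cnt c on i) ∧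
    ∑ i ∈ J, g i ≤ N ∧ (∀ p, c p ≠ 0 → ∃! i, i ∈ J ∧ on i p) ∧
    (∀ i ∈ J, ∃ p, c p ≠ 0 ∧ on i p) ∧
    ∀ i ∈ J, ∀ p, cyc i p ≠ 0 → cyc i p = 1 ∧ c p ≠ 0

theorem hom_' (hA2 : StA2) (hSP : StSP) (hA3 : StA3) (hBEZ : StBEZ) : StHOM' := by
  intro n r Ω _ _ _ κ m N d c g on cyc A hC hNd hc0 hc1 hcnt
  classical
  have hd := hC.hd
  have hm := hC.hm
  have hn := hC.hn
  have hab : ((c.support.image c).card + 1) * (N + n - 1) < d := by
    have h1 : (c.support.image c).card ≤ 1 := by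
      rw [Finset.card_le_one]
      intro a ha b hb
      rw [Finset.mem_image] at ha hb
      obtain ⟨p, hp, rfl⟩ := ha
      obtain ⟨q, hq, rfl⟩ := hb
      rw [hc1 p (Finsupp.mem_support_iff.1 hp), hc1 q (Finsupp.mem_support_iff.1 hq)]
    refine lt_of_le_of_lt (Nat.mul_le_mul_right _ ?_) hNd
    omega
  obtain ⟨t, G, J, a, hp, hinj, he, hcov, hmin, hsum⟩ := coreN hA2 hSP hA3 hBEZ hC (Or.inr hab)
  have hcntS : ∀ i, cnt c on i = (c.support.filter fun p => on i p).card := by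
    intro i
    unfold cnt
    rw [← Set.ncard_coe_finset]
    congr 1
    ext p
    simp
  have hJ : ∀ i, i ∈ J ↔ g i * N < cnt c on i := by
    intro i
    constructor
    · intro hi
      obtain ⟨p0, hp0, hp1⟩ := hmin i hi
      have h1 := prj_card_only hA3 hn hd hm hp hinj he hC.hcr (conf_c0 hC) hi (on_only hcov i)
        ⟨p0, mem_only.2 ⟨hp0, hp1⟩⟩
      have h2 : (only J on c i).card ≤ cnt c on i := by
        rw [hcntS]
        refine Finset.card_le_card fun p hpp => ?_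
        rw [Finset.mem_filter]
        exact ⟨Finsupp.mem_support_iff.2 (mem_only.1 hpp).1, on_only hcov i p hpp⟩
      have hgi : 1 ≤ g i := by
        rw [← hp.deg]
        exact one_le_td (hp.irr i)
      have h3 : g i * (N + (n - 1 + ∑ i ∈ J, g i)) < g i * d :=
        Nat.mul_lt_mul_of_pos_left (by omega) (by omega)
      rw [mul_add] at h3
      omega
    · intro hi
      by_contra hiJ
      have h1 : cnt c on i ≤ ∑ j ∈ J, g i * g j := by
        rw [hcntS]
        have h2 : (c.support.filter fun p => on i p) ⊆ J.biUnion fun j =>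
            c.support.filter fun p => on i p ∧ on j p := by
          intro p hpp
          rw [Finset.mem_filter] at hpp
          obtain ⟨j, hj, hj'⟩ := hcov p (Finsupp.mem_support_iff.1 hpp.1)
          rw [Finset.mem_biUnion]
          exact ⟨j, hj, Finset.mem_filter.2 ⟨hpp.1, hpp.2, hj'⟩⟩
        refine (Finset.card_le_card h2).trans (Finset.card_biUnion_le.trans ?_)
        refine Finset.sum_le_sum fun j hj => ?_
        have hij : i ≠ j := by
          rintro rfl
          exact hiJ hj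
        refine card_two hBEZ hp hinj hij _ fun p h => ?_
        rw [Finset.mem_filter, Finsupp.mem_support_iff] at h
        exact ⟨(conf_c0 hC p h.1).1, h.2.1, h.2.2⟩
      rw [← Finset.mul_sum] at h1
      have h2 : g i * ∑ j ∈ J, g j ≤ g i * N := Nat.mul_le_mul_left _ he
      omega
  have hset : ∀ p, {i | g i * N < cnt c on i ∧ on i p} = {i | i ∈ J ∧ on i p} := by
    intro p
    ext i
    simp only [Set.mem_ofPred_eq, hJ]
  have huniq : ∀ p, c p ≠ 0 → ∃! i, i ∈ J ∧ on i p := by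
    obtain ⟨p1, hp1⟩ := Finsupp.support_nonempty_iff.2 hc0
    obtain ⟨j, hj, -⟩ := hcov p1 (Finsupp.mem_support_iff.1 hp1)
    obtain ⟨p0, hp0, hp0'⟩ := hmin j hj
    have h1 : {i | i ∈ J ∧ on i p0}.ncard = 1 := by
      rw [Set.ncard_eq_one]
      refine ⟨j, ?_⟩
      ext i
      rw [Set.mem_ofPred_eq, Set.mem_singleton_iff]
      constructor
      · rintro ⟨hi, hi'⟩
        by_contra hij
        exact hp0' i hi hij hi'
      · rintro rfl
        exact ⟨hj, on_only hcov i p0 (mem_only.2 ⟨hp0, hp0'⟩)⟩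
    intro p hpc
    have h2 := hcnt p p0 hpc hp0
    rw [hset, hset, h1, Set.ncard_eq_one] at h2
    obtain ⟨i, hi⟩ := h2
    have h3 : ∀ k, (k ∈ J ∧ on k p) ↔ k = i := by
      intro k
      have := Set.ext_iff.1 hi k
      rwa [Set.mem_ofPred_eq, Set.mem_singleton_iff] at this
    exact ⟨i, (h3 i).2 rfl, fun k hk => (h3 k).1 hk⟩
  have hpt : ∀ i ∈ J, ∃ p, c p ≠ 0 ∧ on i p := by
    intro i hi
    obtain ⟨p0, hp0, hp1⟩ := hmin i hi
    exact ⟨p0, hp0, on_only hcov i p0 (mem_only.2 ⟨hp0, hp1⟩)⟩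
  have hval : ∀ p, c p = ∑ j ∈ J, a j * cyc j p := by
    intro p
    conv_lhs => rw [hsum]
    rw [Finset.sum_apply']
    simp [Finsupp.smul_apply]
  have ha : ∀ i ∈ J, a i = 1 := by
    intro i hi
    obtain ⟨p, hpc, hpi⟩ := hpt i hi
    obtain ⟨k, hk, hk'⟩ := huniq p hpc
    have h1 : c p = a i * cyc i p := by
      rw [hval, Finset.sum_eq_single_of_mem i hi]
      intro j hj hji
      have h5 : cyc j p = 0 := by
        by_contra h5
        have h6 := hk' j ⟨hj, (hC.cyc0 j p h5).2.2⟩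
        have h7 := hk' i ⟨hi, hpi⟩
        exact hji (h6.trans h7.symm)
      rw [h5, mul_zero]
    rw [hc1 p hpc] at h1
    have h2 := hC.cycnn i p
    rcases Int.eq_one_or_neg_one_of_mul_eq_one h1.symm with h3 | h3
    · exact h3
    · rw [h3] at h1
      omega
  refine ⟨J, hJ, he, huniq, hpt, fun i hi p hcp => ?_⟩
  have h1 : c p = ∑ j ∈ J, cyc j p := by
    rw [hval]
    refine Finset.sum_congr rfl fun j hj => ?_
    rw [ha j hj, one_mul]
  have h2 : cyc i p ≤ ∑ j ∈ J, cyc j p :=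
    Finset.single_le_sum (f := fun j => cyc j p) (fun j _ => hC.cycnn j p) hi
  have h3 := hC.cycnn i p
  have h4 : c p ≠ 0 := by omega
  have h5 := hc1 p h4
  exact ⟨by omega, h4⟩

end Pool.Agent.N543.HN
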