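import Pool.Agent.N162.HN.Stm
import Pool.Agent.N162.CW.Base

/-!
# HN/MAIN (helper543, port of CV/Base, CW/Base of helper162): forms with given values at affine points
-/

set_option autoImplicit false
set_option linter.unusedSectionVars false

open MvPolynomial

namespace Pool.Agent.N543.HN

open Pool.Agent.N162.HN
open Pool.Agent.N162.CV (PRel MonicY)
open Pool.Agent.N162.CW (td_aeval)

section

variable {n : ℕ} {Ω : Type} [Field Ω]

/-- the weighted sum of the values of `P` as a homomorphism -/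
noncomputable def LamH (κ : (Fin (n + 2) → Ω) → Ω) (P : MvPolynomial (Fin (n + 2)) Ω) :
    ((Fin (n + 2) → Ω) →₀ ℤ) →+ Ω :=
  Finsupp.liftAddHom fun p => (AddMonoidHom.mulRight (κ p * eval p P)).comp (Int.castAddHom Ω)

theorem Lam_eq (κ : (Fin (n + 2) → Ω) → Ω) (P : MvPolynomial (Fin (n + 2)) Ω)
    (c : (Fin (n + 2) → Ω) →₀ ℤ) : Lam κ P c = LamH κ P c := rfl

theorem rel_sub {m : ℕ} {κ : (Fin (n + 2) → Ω) → Ω} {c c' : (Fin (n + 2) → Ω) →₀ ℤ}
    (h : Rel m κ c) (h' : Rel m κ c') : Rel m κ (c - c') := by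
  intro P hP
  rw [Lam_eq, map_sub, ← Lam_eq, ← Lam_eq, h P hP, h' P hP, sub_zero]

theorem rel_sum {m : ℕ} {κ : (Fin (n + 2) → Ω) → Ω} {ι : Type} (J : Finset ι)
    (c : ι → (Fin (n + 2) → Ω) →₀ ℤ) (h : ∀ i, Rel m κ (c i)) : Rel m κ (∑ i ∈ J, c i) := by
  intro P hP
  rw [Lam_eq, map_sum]
  exact Finset.sum_eq_zero fun i _ => h i P hP

theorem rel_zsmul {m : ℕ} {κ : (Fin (n + 2) → Ω) → Ω} {c : (Fin (n + 2) → Ω) →₀ ℤ}
    (h : Rel m κ c) (a : ℤ) : Rel m κ (a • c) := by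
  intro P hP
  rw [Lam_eq, map_zsmul, ← Lam_eq, h P hP, smul_zero]

/-- forms with given values in the affine coordinates -/
theorem exists_formA (m : ℕ) (P : MvPolynomial (Fin (n + 1)) Ω) (hP : P.totalDegree ≤ m) :
    ∃ Q : MvPolynomial (Fin (n + 2)) Ω, Q.IsHomogeneous m ∧
      ∀ p : Fin (n + 2) → Ω, p 0 = 1 → eval p Q = eval (Fin.tail p) P := by
  classical
  refine ⟨∑ e ∈ P.support, C (P.coeff e) * ((∏ j : Fin (n + 1), X j.succ ^ e j) *
    X 0 ^ (m - ∑ j, e j)), ?_, ?_⟩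
  · refine IsHomogeneous.sum _ _ _ fun e he => ?_
    have h1 : ∑ j, e j ≤ m := by
      have h2 := le_totalDegree he
      rw [Finsupp.sum_fintype _ _ (fun _ => rfl)] at h2
      omega
    have h2 : (∏ j : Fin (n + 1), X j.succ ^ e j : MvPolynomial (Fin (n + 2)) Ω).IsHomogeneous
        (∑ j, e j) := by
      refine IsHomogeneous.prod _ _ _ fun j _ => ?_
      have h3 := (isHomogeneous_X Ω (j.succ : Fin (n + 2))).pow (e j)
      rwa [one_mul] at h3
    have h3 := (isHomogeneous_X Ω (0 : Fin (n + 2))).pow (m - ∑ j, e j)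
    have h5 := (isHomogeneous_C (Fin (n + 2)) (P.coeff e)).mul (h2.mul h3)
    have h6 : 0 + (∑ j, e j + 1 * (m - ∑ j, e j)) = m := by omega
    rwa [h6] at h5
  · intro p hp
    rw [map_sum]
    conv_rhs => rw [P.as_sum, map_sum]
    refine Finset.sum_congr rfl fun e _ => ?_
    rw [eval_monomial, Finsupp.prod_fintype _ _ (fun i => pow_zero _)]
    simp [Fin.tail, hp]

theorem toSpace {m : ℕ} {κ : (Fin (n + 2) → Ω) → Ω} {c : (Fin (n + 2) → Ω) →₀ ℤ}
    (h : Rel m κ c) (h0 : ∀ p, c p ≠ 0 → p 0 = 1) (R : MvPolynomial (Fin (n + 1)) Ω) {k : ℕ}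
    (hk : R.totalDegree + k ≤ m) (P : MvPolynomial (Fin (n + 1)) Ω) (hP : P.totalDegree ≤ k) :
    ∑ p ∈ c.support, (c p : Ω) * κ p * eval (Fin.tail p) R * eval (Fin.tail p) P = 0 := by
  obtain ⟨Q, hQ, hQe⟩ := exists_formA m (R * P) ((totalDegree_mul _ _).trans (by omega))
  rw [← h Q hQ, Lam]
  refine Finset.sum_congr rfl fun p hp => ?_
  rw [hQe p (h0 p (Finsupp.mem_support_iff.1 hp)), map_mul]
  ring

/-- the cylinder over a plane curve -/
noncomputable def cyl (n : ℕ) (t : Ω) (P : MvPolynomial (Fin 2) Ω) :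
    MvPolynomial (Fin (n + 1)) Ω :=
  aeval ![X 0, ∑ l : Fin n, C (t ^ (l : ℕ)) * X l.succ] P

theorem td_cyl (t : Ω) (P : MvPolynomial (Fin 2) Ω) :
    (cyl n t P).totalDegree ≤ P.totalDegree := by
  have h1 : (∑ l : Fin n, C (t ^ (l : ℕ)) * X l.succ : MvPolynomial (Fin (n + 1)) Ω).totalDegree
      ≤ 1 := by
    refine totalDegree_finsetSum_le fun l _ => ?_
    refine (totalDegree_mul (C (t ^ (l : ℕ)) : MvPolynomial (Fin (n + 1)) Ω) (X l.succ)).trans ?_
    rw [totalDegree_C, totalDegree_X]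
  refine td_aeval _ (fun i => ?_) P
  fin_cases i
  · exact (totalDegree_X (R := Ω) (0 : Fin (n + 1))).le
  · exact h1

theorem eval_cyl (t : Ω) (P : MvPolynomial (Fin 2) Ω) (p : Fin (n + 2) → Ω) :
    eval (Fin.tail p) (cyl n t P) = eval (pr t p) P := by
  have h1 : eval (Fin.tail p) (cyl n t P) = aeval (Fin.tail p) (cyl n t P) := rfl
  have h2 : eval (pr t p) P = aeval (pr t p) P := rfl
  rw [h1, h2]
  unfold cyl
  rw [← AlgHom.comp_apply]
  congr 1
  refine algHom_ext fun i => ?_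
  fin_cases i
  · simp [Fin.tail, pr]
  · simp [Fin.tail, pr]

theorem toPlane {m : ℕ} {κ : (Fin (n + 2) → Ω) → Ω} {c : (Fin (n + 2) → Ω) →₀ ℤ}
    (h : Rel m κ c) (h0 : ∀ p, c p ≠ 0 → p 0 = 1) (t : Ω) :
    PRel m c.support (pr t) (fun p => (c p : Ω) * κ p) := by
  intro P hP
  obtain ⟨Q, hQ, hQe⟩ := exists_formA m (cyl n t P) ((td_cyl t P).trans hP)
  rw [← h Q hQ, Lam]
  refine Finset.sum_congr rfl fun p hp => ?_
  rw [hQe p (h0 p (Finsupp.mem_support_iff.1 hp)), eval_cyl, mul_assoc]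

theorem tl_inj {p q : Fin (n + 2) → Ω} (hp : p 0 = 1) (hq : q 0 = 1)
    (h : Fin.tail p = Fin.tail q) : p = q := by
  rw [← Fin.cons_self_tail p, ← Fin.cons_self_tail q, h, hp, hq]

theorem cons_tl {p : Fin (n + 2) → Ω} (hp : p 0 = 1) :
    (Fin.cons (1 : Ω) (Fin.tail p) : Fin (n + 2) → Ω) = p := by
  rw [← hp, Fin.cons_self_tail]

end

end Pool.Agent.N543.HN
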